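import Pool.Agent.H63.TC.Stmts

/-!
# Project TC, module BCC: choice of the zooming points
-/

open Complex Metric Set Filter Topology MeasureTheory

namespace Pool.Agent.H63.TC

/-- the function `q` of a generator: `f z = f 0 - conj (f 0) z ^ 2 - z q z` -/
noncomputable def bccQ (F : ℂ → ℂ) : ℂ → ℂ :=
  dslope (fun z => F 0 - (starRingEnd ℂ) (F 0) * z ^ 2 - F z) 0

lemma bccQ_eq (F : ℂ → ℂ) (z : ℂ) :
    F z = F 0 - (starRingEnd ℂ) (F 0) * z ^ 2 - z * bccQ F z := by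
  by_cases hz : z = 0
  · subst hz; simp
  · rw [bccQ, dslope_of_ne _ hz, slope_def_field]
    have : z * ((F 0 - (starRingEnd ℂ) (F 0) * z ^ 2 - F z -
        (F 0 - (starRingEnd ℂ) (F 0) * 0 ^ 2 - F 0)) / (z - 0)) =
        F 0 - (starRingEnd ℂ) (F 0) * z ^ 2 - F z := by
      rw [sub_zero]
      field_simp
      ring
    rw [this]
    ring

lemma bccQ_diff {F : ℂ → ℂ} (h : DifferentiableOn ℂ F (ball 0 1)) :
    DifferentiableOn ℂ (bccQ F) (ball 0 1) := by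
  rw [bccQ, Complex.differentiableOn_dslope (ball_mem_nhds _ one_pos)]
  exact ((differentiableOn_const _).sub ((differentiableOn_const _).mul
    (differentiableOn_id.pow 2))).sub h

lemma bccQ_re {F : ℂ → ℂ} (h : BPd F) {z : ℂ} (hz : z ∈ ball (0 : ℂ) 1) :
    0 ≤ (bccQ F z).re := by
  have h1 : ∀ z ∈ ball (0 : ℂ) 1, z ≠ 0 → 0 ≤ (bccQ F z).re := by
    intro z hz hz0
    have h2 := h.2 z hz
    have h3 : F 0 - (starRingEnd ℂ) (F 0) * z ^ 2 - F z = z * bccQ F z := by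
      rw [bccQ_eq F z]; ring
    have h4 : (F 0 - (starRingEnd ℂ) (F 0) * z ^ 2 - F z) * (starRingEnd ℂ) z =
        ((‖z‖ ^ 2 : ℝ) : ℂ) * bccQ F z := by
      rw [h3, mul_right_comm, Complex.mul_conj, Complex.normSq_eq_norm_sq]
    rw [h4, Complex.re_ofReal_mul] at h2
    have h5 : 0 < ‖z‖ ^ 2 := by positivity
    exact nonneg_of_mul_nonneg_right h2 h5
  by_cases hz0 : z = 0
  · subst hz0
    have hc : ContinuousAt (bccQ F) 0 :=
      (bccQ_diff h.1).continuousOn.continuousAt (ball_mem_nhds _ one_pos)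
    have hc' : Tendsto (fun w => (bccQ F w).re) (𝓝[≠] 0) (𝓝 (bccQ F 0).re) :=
      ((Complex.continuous_re.tendsto _).comp hc.tendsto).mono_left nhdsWithin_le_nhds
    refine ge_of_tendsto hc' ?_
    filter_upwards [self_mem_nhdsWithin, nhdsWithin_le_nhds (ball_mem_nhds (0 : ℂ) one_pos)]
      with w hw hw'
    exact h1 w hw' hw
  · exact h1 z hz hz0

lemma bccQ_cont {b₁ b₂ : ℝ} {f : ℝ → ℂ → ℂ}
    (hc : ContinuousOn (fun q : ℝ × ℂ => f q.1 q.2) (Ioo b₁ b₂ ×ˢ ball 0 1))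
    (hd : ∀ b ∈ Ioo b₁ b₂, DifferentiableOn ℂ (f b) (ball 0 1)) :
    ContinuousOn (fun q : ℝ × ℂ => bccQ (f q.1) q.2) (Ioo b₁ b₂ ×ˢ ball 0 1) := by
  have hopen : IsOpen (Ioo b₁ b₂ ×ˢ ball (0 : ℂ) 1) := isOpen_Ioo.prod isOpen_ball
  -- away from `z = 0`
  have h1 : ∀ b ∈ Ioo b₁ b₂, ∀ z ∈ ball (0 : ℂ) 1, z ≠ 0 →
      ContinuousAt (fun q : ℝ × ℂ => bccQ (f q.1) q.2) (b, z) := by
    intro b hb z hz hz0
    have c1 : ContinuousAt (fun q : ℝ × ℂ => f q.1 q.2) (b, z) :=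
      hc.continuousAt (hopen.mem_nhds ⟨hb, hz⟩)
    have c2 : ContinuousAt (fun q : ℝ × ℂ => f q.1 0) (b, z) := by
      have c3 : ContinuousAt (fun q : ℝ × ℂ => f q.1 q.2) (b, 0) :=
        hc.continuousAt (hopen.mem_nhds ⟨hb, mem_ball_self one_pos⟩)
      have c4 : ContinuousAt (fun q : ℝ × ℂ => (q.1, (0 : ℂ))) (b, z) := by fun_prop
      exact ContinuousAt.comp (f := fun q : ℝ × ℂ => (q.1, (0 : ℂ)))
        (g := fun q : ℝ × ℂ => f q.1 q.2) c3 c4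
    have c5 : ContinuousAt (fun q : ℝ × ℂ => q.2) (b, z) := continuousAt_snd
    have c6 : ContinuousAt (fun q : ℝ × ℂ => (starRingEnd ℂ) (f q.1 0)) (b, z) :=
      Complex.continuous_conj.continuousAt.comp c2
    have c7 := ((c2.sub (c6.mul (c5.pow 2))).sub c1).div c5 hz0
    refine c7.congr ?_
    have h2 : ∀ᶠ q : ℝ × ℂ in 𝓝 (b, z), q.2 ≠ 0 := c5.eventually_ne hz0
    filter_upwards [h2] with q hq
    have := bccQ_eq (f q.1) q.2
    simp only [Pi.div_apply, Pi.sub_apply, Pi.mul_apply, Pi.pow_apply]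
    rw [div_eq_iff hq]
    rw [this]
    ring
  rintro ⟨b, z⟩ ⟨hb, hz⟩
  apply ContinuousAt.continuousWithinAt
  by_cases hz0 : z = 0
  swap
  · exact h1 b hb z hz hz0
  subst hz0
  rw [Metric.continuousAt_iff]
  intro ε hε
  -- uniform continuity on the circle of radius `1/2`
  have h2 : ∀ᶠ b' in 𝓝 b, ∀ w ∈ sphere (0 : ℂ) (1 / 2),
      ‖bccQ (f b') w - bccQ (f b) w‖ < ε / 2 := by
    refine IsCompact.eventually_forall_of_forall_eventually
      (P := fun b' w => ‖bccQ (f b') w - bccQ (f b) w‖ < ε / 2) (isCompact_sphere _ _) ?_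
    intro w hw
    have hw' : ‖w‖ = 1 / 2 := by simpa using hw
    have hw0 : w ≠ 0 := by
      intro h; rw [h] at hw'; norm_num at hw'
    have hwb : w ∈ ball (0 : ℂ) 1 := by
      rw [mem_ball_zero_iff, hw']; norm_num
    have c1 := h1 b hb w hwb hw0
    have c2 : ContinuousAt (fun q : ℝ × ℂ => bccQ (f b) q.2) (b, w) := by
      have c3 : ContinuousAt (bccQ (f b)) w :=
        (bccQ_diff (hd b hb)).continuousOn.continuousAt (isOpen_ball.mem_nhds hwb)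
      exact ContinuousAt.comp (f := fun q : ℝ × ℂ => q.2) (g := bccQ (f b)) c3 continuousAt_snd
    have c4 := (c1.sub c2).norm
    have c5 : Tendsto (fun q : ℝ × ℂ => ‖bccQ (f q.1) q.2 - bccQ (f b) q.2‖) (𝓝 (b, w))
        (𝓝 0) := by
      have := c4.tendsto
      simpa using this
    exact c5.eventually_lt_const (by linarith)
  have h3 : ∀ᶠ b' in 𝓝 b, b' ∈ Ioo b₁ b₂ := isOpen_Ioo.mem_nhds hb
  have h4 : ∀ᶠ w in 𝓝 (0 : ℂ), ‖bccQ (f b) w - bccQ (f b) 0‖ < ε / 2 := by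
    have c3 : ContinuousAt (bccQ (f b)) 0 :=
      (bccQ_diff (hd b hb)).continuousOn.continuousAt (ball_mem_nhds _ one_pos)
    have := Metric.tendsto_nhds.1 c3.tendsto (ε / 2) (by linarith)
    simpa [dist_eq_norm] using this
  have h5 : ∀ᶠ w in 𝓝 (0 : ℂ), w ∈ ball (0 : ℂ) (1 / 2) := ball_mem_nhds _ (by norm_num)
  have h6 := ((h2.and h3).prod_nhds (h4.and h5))
  rw [Metric.eventually_nhds_iff] at h6
  obtain ⟨δ, hδ, h6⟩ := h6
  refine ⟨δ, hδ, fun {x} hx => ?_⟩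
  obtain ⟨⟨a1, a2⟩, a3, a4⟩ := h6 hx
  have h7 : ‖bccQ (f x.1) x.2 - bccQ (f b) x.2‖ ≤ ε / 2 := by
    have hdd : DiffContOnCl ℂ (fun w => bccQ (f x.1) w - bccQ (f b) w) (ball 0 (1 / 2)) := by
      refine DifferentiableOn.diffContOnCl ?_
      rw [closure_ball _ (by norm_num)]
      have hsub : closedBall (0 : ℂ) (1 / 2) ⊆ ball 0 1 := closedBall_subset_ball (by norm_num)
      exact ((bccQ_diff (hd _ a2)).mono hsub).sub ((bccQ_diff (hd _ hb)).mono hsub)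
    refine Complex.norm_le_of_forall_mem_frontier_norm_le isBounded_ball hdd ?_
      (subset_closure a4)
    intro w hw
    rw [frontier_ball _ (by norm_num)] at hw
    exact (a1 w hw).le
  rw [dist_eq_norm]
  have : bccQ (f x.1) x.2 - bccQ (f b) 0 = (bccQ (f x.1) x.2 - bccQ (f b) x.2) +
    (bccQ (f b) x.2 - bccQ (f b) 0) := by ring
  simp only
  rw [this]
  refine (norm_add_le _ _).trans_lt ?_
  linarith

lemma bcc_one_le {w : ℂ} (h : 0 ≤ w.re) : 1 ≤ ‖1 + w‖ := by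
  have h1 : (1 + w).re ≤ ‖1 + w‖ := Complex.re_le_norm _
  simp only [add_re, one_re] at h1
  linarith

lemma bcc_le {w : ℂ} (h : 0 ≤ w.re) : ‖w‖ ≤ ‖1 + w‖ := by
  rw [← sq_le_sq₀ (norm_nonneg _) (norm_nonneg _), ← Complex.normSq_eq_norm_sq,
    ← Complex.normSq_eq_norm_sq, Complex.normSq_apply, Complex.normSq_apply]
  simp only [add_re, one_re, add_im, one_im, zero_add]
  nlinarith

lemma bcc_B {F : ℂ → ℂ} (h : BPd F) {z : ℂ} (hz : z ∈ ball (0 : ℂ) 1) :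
    ‖F z / (1 + bccQ F z)‖ ≤ 2 * ‖F 0‖ + 1 := by
  have h0 := bccQ_re h hz
  have h1 := bcc_one_le h0
  have h2 := bcc_le h0
  have hz1 : ‖z‖ < 1 := by simpa using hz
  rw [norm_div, div_le_iff₀ (by linarith)]
  have h3 : ‖F z‖ ≤ ‖F 0‖ + ‖F 0‖ * ‖z‖ ^ 2 + ‖z‖ * ‖bccQ F z‖ := by
    conv_lhs => rw [bccQ_eq F z]
    refine (norm_sub_le _ _).trans ?_
    rw [norm_mul z]
    gcongr
    refine (norm_sub_le _ _).trans ?_
    rw [norm_mul, norm_pow, RCLike.norm_conj]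
  have h4 : ‖z‖ ^ 2 ≤ 1 := by nlinarith [norm_nonneg z]
  have h5 : ‖F 0‖ * ‖z‖ ^ 2 ≤ ‖F 0‖ * 1 := by gcongr
  have h6 : ‖z‖ * ‖bccQ F z‖ ≤ 1 * ‖1 + bccQ F z‖ := by gcongr
  have h7 : ‖F 0‖ * 1 ≤ ‖F 0‖ * ‖1 + bccQ F z‖ := by gcongr
  nlinarith

/-! ### measures on rectangles -/

/-- the rectangle -/
def bccR (c₁ c₂ : ℝ) : Set (ℝ × ℝ) := Icc c₁ c₂ ×ˢ Icc 0 (2 * Real.pi)

lemma bccR_compact (c₁ c₂ : ℝ) : IsCompact (bccR c₁ c₂) := isCompact_Icc.prod isCompact_Icc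

lemma bccR_meas (c₁ c₂ : ℝ) : MeasurableSet (bccR c₁ c₂) := (bccR_compact c₁ c₂).measurableSet

lemma bcc_int {c₁ c₂ : ℝ} (h12 : c₁ ≤ c₂) {F : ℝ × ℝ → ℝ} (hF : ContinuousOn F (bccR c₁ c₂)) :
    ∫ b in c₁..c₂, ∫ θ in (0 : ℝ)..(2 * Real.pi), F (b, θ) = ∫ x in bccR c₁ c₂, F x := by
  have hi : IntegrableOn F (bccR c₁ c₂) (volume.prod volume) := by
    rw [← Measure.volume_eq_prod]
    exact hF.integrableOn_compact (bccR_compact _ _)
  rw [Measure.volume_eq_prod, bccR, setIntegral_prod F hi, intervalIntegral.integral_of_le h12,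
    integral_Icc_eq_integral_Ioc]
  refine integral_congr_ae (Eventually.of_forall fun b => ?_)
  simp only
  rw [intervalIntegral.integral_of_le (by positivity), integral_Icc_eq_integral_Ioc]

lemma bcc_vol (c₁ c₂ : ℝ) : volume (bccR c₁ c₂) = ENNReal.ofReal ((c₂ - c₁) * (2 * Real.pi)) := by
  rw [bccR, Measure.volume_eq_prod, Measure.prod_prod, Real.volume_Icc, Real.volume_Icc, sub_zero,
    ← ENNReal.ofReal_mul']
  positivity

lemma bcc_markov {c₁ c₂ : ℝ} (h12 : c₁ ≤ c₂) {F : ℝ × ℝ → ℝ} (hF : ContinuousOn F (bccR c₁ c₂))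
    (h0 : ∀ x, 0 ≤ F x) {ε I : ℝ} (hε : 0 < ε)
    (hI : ∫ b in c₁..c₂, ∫ θ in (0 : ℝ)..(2 * Real.pi), F (b, θ) ≤ ε * I) :
    volume ({x | ε ≤ F x} ∩ bccR c₁ c₂) ≤ ENNReal.ofReal I := by
  rw [bcc_int h12 hF] at hI
  have h1 := mul_meas_ge_le_integral_of_nonneg (μ := volume.restrict (bccR c₁ c₂)) (f := F)
    (Eventually.of_forall h0) (hF.integrableOn_compact (bccR_compact _ _)) ε
  have h2 : (volume.restrict (bccR c₁ c₂)).real {x | ε ≤ F x} ≤ I := by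
    have := h1.trans hI
    exact le_of_mul_le_mul_left this hε
  rw [← Measure.restrict_apply' (bccR_meas _ _)]
  have hfin : (volume.restrict (bccR c₁ c₂)) {x | ε ≤ F x} ≠ ⊤ := by
    have : IsFiniteMeasure (volume.restrict (bccR c₁ c₂)) :=
      ⟨by rw [Measure.restrict_apply_univ, bcc_vol]; exact ENNReal.ofReal_lt_top⟩
    exact measure_ne_top _ _
  rw [← ENNReal.ofReal_toReal hfin]
  exact ENNReal.ofReal_le_ofReal h2

lemma bcc_select {c₁ c₂ : ℝ} (h12 : c₁ < c₂) {F : ℝ × ℝ → ℝ} (hF : ContinuousOn F (bccR c₁ c₂))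
    {M2 cL : ℝ} (hM2 : 0 < M2) (hcL : 0 < cL) (h1 : ∀ x ∈ bccR c₁ c₂, F x ≤ M2)
    (hI : cL ≤ ∫ b in c₁..c₂, ∫ θ in (0 : ℝ)..(2 * Real.pi), F (b, θ)) {U : Set (ℝ × ℝ)}
    (hU : volume (U ∩ bccR c₁ c₂) ≤ ENNReal.ofReal (3 / 4 * (cL / (2 * M2)))) :
    ∃ x ∈ bccR c₁ c₂, x ∉ U ∧ cL / (2 * ((c₂ - c₁) * (2 * Real.pi))) ≤ F x := by
  by_contra hcon
  push Not at hcon
  rw [bcc_int h12.le hF] at hI
  set Ar : ℝ := (c₂ - c₁) * (2 * Real.pi) with hAr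
  have hArp : 0 < Ar := by
    have : 0 < c₂ - c₁ := by linarith
    positivity
  set U' := toMeasurable volume (U ∩ bccR c₁ c₂) with hU'
  have hU'm : MeasurableSet U' := measurableSet_toMeasurable _ _
  have hU'v : volume U' = volume (U ∩ bccR c₁ c₂) := measure_toMeasurable _
  have hU'f : volume U' ≤ ENNReal.ofReal (3 / 4 * (cL / (2 * M2))) := by rw [hU'v]; exact hU
  have hle : ∀ x ∈ bccR c₁ c₂, F x ≤ U'.indicator (fun _ => M2) x + cL / (2 * Ar) := by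
    intro x hx
    by_cases hxU : x ∈ U'
    · rw [indicator_of_mem hxU]
      have := h1 x hx
      have : 0 < cL / (2 * Ar) := by positivity
      linarith
    · rw [indicator_of_notMem hxU, zero_add]
      refine (hcon x hx fun h => hxU ?_).le
      exact subset_toMeasurable _ _ ⟨h, hx⟩
  have hfinR : volume (bccR c₁ c₂) ≠ ⊤ := by rw [bcc_vol]; exact ENNReal.ofReal_ne_top
  have hi1 : IntegrableOn (U'.indicator (fun _ => M2)) (bccR c₁ c₂) volume := by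
    have : IntegrableOn (fun _ : ℝ × ℝ => M2) (bccR c₁ c₂) volume :=
      integrableOn_const hfinR
    exact this.indicator hU'm
  have hi2 : IntegrableOn (fun _ : ℝ × ℝ => cL / (2 * Ar)) (bccR c₁ c₂) volume :=
    integrableOn_const hfinR
  have h2 : ∫ x in bccR c₁ c₂, F x ≤ ∫ x in bccR c₁ c₂, (U'.indicator (fun _ => M2) x +
      cL / (2 * Ar)) :=
    setIntegral_mono_on (hF.integrableOn_compact (bccR_compact _ _)) (hi1.add hi2)
      (bccR_meas _ _) hle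
  rw [integral_add hi1 hi2, setIntegral_indicator hU'm, setIntegral_const, setIntegral_const,
    smul_eq_mul, smul_eq_mul] at h2
  have h3 : volume.real (bccR c₁ c₂) = Ar := by
    rw [Measure.real, bcc_vol, ENNReal.toReal_ofReal hArp.le]
  have h4 : volume.real (bccR c₁ c₂ ∩ U') ≤ 3 / 4 * (cL / (2 * M2)) := by
    refine ENNReal.toReal_le_of_le_ofReal (by positivity) ?_
    exact (measure_mono inter_subset_right).trans hU'f
  rw [h3] at h2
  have h5 : Ar * (cL / (2 * Ar)) = cL / 2 := by field_simp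
  have h6 : volume.real (bccR c₁ c₂ ∩ U') * M2 ≤ 3 / 4 * (cL / (2 * M2)) * M2 := by gcongr
  have h7 : 3 / 4 * (cL / (2 * M2)) * M2 = 3 / 8 * cL := by field_simp; norm_num
  rw [h5] at h2
  linarith

lemma bcc_slice {c₁ c₂ : ℝ} (h12 : c₁ ≤ c₂) {h : ℝ × ℝ → ℝ} (hh : ContinuousOn h (bccR c₁ c₂))
    {Λ v : ℝ} (hv : ∀ b ∈ Icc c₁ c₂, volume {θ ∈ Icc (0 : ℝ) (2 * Real.pi) | Λ < h (b, θ)} ≤
      ENNReal.ofReal v) :
    volume ({x | Λ < h x} ∩ bccR c₁ c₂) ≤ ENNReal.ofReal (v * (c₂ - c₁)) := by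
  have hm : MeasurableSet ({x | Λ < h x} ∩ bccR c₁ c₂) := by
    obtain ⟨u, hu, hu'⟩ := (_root_.continuousOn_iff'.1 hh) (Ioi Λ) isOpen_Ioi
    have : {x | Λ < h x} ∩ bccR c₁ c₂ = u ∩ bccR c₁ c₂ := hu'
    rw [this]
    exact hu.measurableSet.inter (bccR_meas _ _)
  rw [Measure.volume_eq_prod, Measure.prod_apply hm]
  have h1 : ∀ b : ℝ, volume (Prod.mk b ⁻¹' ({x | Λ < h x} ∩ bccR c₁ c₂)) ≤
      (Icc c₁ c₂).indicator (fun _ => ENNReal.ofReal v) b := by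
    intro b
    by_cases hb : b ∈ Icc c₁ c₂
    · rw [indicator_of_mem hb]
      refine (measure_mono ?_).trans (hv b hb)
      intro θ hθ
      exact ⟨hθ.2.2, hθ.1⟩
    · rw [indicator_of_notMem hb]
      have : Prod.mk b ⁻¹' ({x | Λ < h x} ∩ bccR c₁ c₂) = ∅ := by
        ext θ
        simp only [mem_preimage, mem_inter_iff, mem_empty_iff_false, iff_false]
        rintro ⟨-, h2⟩
        exact hb h2.1
      rw [this, measure_empty]
  refine (lintegral_mono h1).trans ?_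
  rw [lintegral_indicator_const measurableSet_Icc, Real.volume_Icc,
    ← ENNReal.ofReal_mul' (by linarith)]

lemma bcc_diff {u u' B B' : ℂ} {Λ M s : ℝ} (hu0 : u ≠ 0) (hu0' : u' ≠ 0) (hu : ‖u‖ ≤ Λ)
    (hB : ‖B‖ ≤ M) (hΛ : 0 < Λ) (hs : 2 * Λ * s ≤ 1) (h1 : ‖B' - B‖ ≤ s)
    (h2 : ‖1 / u' - 1 / u‖ ≤ s) :
    ‖B' * u' - B * u‖ ≤ (2 * Λ + 2 * M * Λ ^ 2) * s := by
  have hs0 : 0 ≤ s := (norm_nonneg _).trans h1
  have hM0 : 0 ≤ M := (norm_nonneg _).trans hB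
  have hup : 0 < ‖u‖ := norm_pos_iff.2 hu0
  have hup' : 0 < ‖u'‖ := norm_pos_iff.2 hu0'
  -- the size of `u'`
  have h3 : 1 / Λ ≤ ‖1 / u‖ := by
    rw [norm_div, norm_one]
    exact one_div_le_one_div_of_le hup hu
  have h4 : ‖1 / u‖ ≤ ‖1 / u'‖ + ‖1 / u' - 1 / u‖ := by
    have := norm_sub_le (1 / u') (1 / u' - 1 / u)
    rwa [sub_sub_cancel] at this
  have h5 : 1 / (2 * Λ) ≤ ‖1 / u'‖ := by
    have h6 : s ≤ 1 / (2 * Λ) := by
      rw [le_div_iff₀ (by positivity)]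
      linarith
    have h7 : 1 / Λ = 1 / (2 * Λ) + 1 / (2 * Λ) := by field_simp; norm_num
    linarith
  have h6 : ‖u'‖ ≤ 2 * Λ := by
    rw [norm_div, norm_one] at h5
    exact (one_div_le_one_div (by positivity) hup').1 h5
  have h7 : ‖u' - u‖ ≤ s * Λ * (2 * Λ) := by
    have h8 : u' - u = -(1 / u' - 1 / u) * u * u' := by
      field_simp
      ring
    rw [h8, norm_mul, norm_mul, norm_neg]
    gcongr
  have h8 : B' * u' - B * u = (B' - B) * u' + B * (u' - u) := by ring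
  rw [h8]
  refine (norm_add_le _ _).trans ?_
  rw [norm_mul, norm_mul]
  have h9 : ‖B' - B‖ * ‖u'‖ ≤ s * (2 * Λ) := by gcongr
  have h10 : ‖B‖ * ‖u' - u‖ ≤ M * (s * Λ * (2 * Λ)) := by gcongr
  nlinarith

lemma bcc_mob {ζ : ℂ} (hζ : ζ ∈ ball (0 : ℂ) 1) {r : ℝ} (hr0 : 0 ≤ r) (hr : r < 1) (θ : ℝ) :
    exp (θ * I) * ((ζ + r) / (1 + r * ζ)) ∈ ball (0 : ℂ) 1 ∧ (1 + r * ζ : ℂ) ≠ 0 := by
  have hz : ‖ζ‖ < 1 := by simpa using hζ
  have hne : (1 + r * ζ : ℂ) ≠ 0 := by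
    intro h
    have h1 : (r * ζ : ℂ) = -1 := by linear_combination h
    have h2 := congrArg norm h1
    rw [norm_mul, norm_neg, norm_one, Complex.norm_real, Real.norm_of_nonneg hr0] at h2
    nlinarith [norm_nonneg ζ]
  refine ⟨?_, hne⟩
  rw [mem_ball_zero_iff, norm_mul, Complex.norm_exp_ofReal_mul_I, one_mul, norm_div,
    div_lt_one (norm_pos_iff.2 hne), ← sq_lt_sq₀ (norm_nonneg _) (norm_nonneg _),
    ← Complex.normSq_eq_norm_sq, ← Complex.normSq_eq_norm_sq, Complex.normSq_apply,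
    Complex.normSq_apply]
  have h3 : ζ.re * ζ.re + ζ.im * ζ.im < 1 := by
    have := Complex.normSq_eq_norm_sq ζ
    rw [Complex.normSq_apply] at this
    rw [this]
    nlinarith [norm_nonneg ζ]
  simp only [add_re, ofReal_re, add_im, ofReal_im, one_re, one_im, mul_re, mul_im, zero_mul,
    sub_zero, add_zero, zero_add]
  have h4 : 0 < (1 - (ζ.re * ζ.re + ζ.im * ζ.im)) * (1 - r * r) := by
    apply mul_pos
    · linarith
    · nlinarith
  nlinarith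

/-- BCC -/
theorem bcc (hL2 : L2cStmt) (hW : WktStmt) (hLow : LowStmt) : BccStmt := by
  intro b₁ b₂ f hb hc hBP hex
  obtain ⟨b₀, hb₀, z₀, hz₀, hf₀⟩ := hex
  have hd : ∀ b ∈ Ioo b₁ b₂, DifferentiableOn ℂ (f b) (ball 0 1) := fun b hb => (hBP b hb).1
  have hQc := bccQ_cont hc hd
  -- a smaller interval
  set β₁ := (b₁ + b₀) / 2 with hβ₁
  set β₂ := (b₀ + b₂) / 2 with hβ₂
  have hβ : b₁ < β₁ ∧ β₁ < b₀ ∧ b₀ < β₂ ∧ β₂ < b₂ := by
    obtain ⟨h1, h2⟩ := hb₀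
    refine ⟨?_, ?_, ?_, ?_⟩ <;> simp only [hβ₁, hβ₂] <;> linarith
  have hsub : Icc β₁ β₂ ⊆ Ioo b₁ b₂ := fun b hb => ⟨hβ.1.trans_le hb.1, hb.2.trans_lt hβ.2.2.2⟩
  have hsub' : Ioo β₁ β₂ ⊆ Ioo b₁ b₂ := Ioo_subset_Icc_self.trans hsub
  have hres : ∀ g : ℝ → ℂ → ℂ, ContinuousOn (fun q : ℝ × ℂ => g q.1 q.2) (Ioo b₁ b₂ ×ˢ ball 0 1) →
      ∀ z ∈ ball (0 : ℂ) 1, ContinuousOn (fun b => g b z) (Icc β₁ β₂) := by
    intro g hg z hz
    exact hg.comp (f := fun b : ℝ => (b, z)) (by fun_prop) (fun b hb => ⟨hsub hb, hz⟩)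
  obtain ⟨A, hA⟩ := isCompact_Icc.exists_bound_of_continuousOn
    (hres f hc 0 (mem_ball_self one_pos))
  obtain ⟨Qm, hQm⟩ := isCompact_Icc.exists_bound_of_continuousOn
    (hres (fun b z => 1 + bccQ (f b) z) (continuousOn_const.add hQc) 0 (mem_ball_self one_pos))
  have hb₀' : b₀ ∈ Icc β₁ β₂ := ⟨hβ.2.1.le, hβ.2.2.1.le⟩
  have hA0 : 0 ≤ A := (norm_nonneg _).trans (hA b₀ hb₀')
  have hQre : ∀ b ∈ Ioo b₁ b₂, ∀ z ∈ ball (0 : ℂ) 1, 0 ≤ (bccQ (f b) z).re :=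
    fun b hb z hz => bccQ_re (hBP b hb) hz
  have hu1 : ∀ b ∈ Ioo b₁ b₂, ∀ z ∈ ball (0 : ℂ) 1, 1 ≤ ‖1 + bccQ (f b) z‖ :=
    fun b hb z hz => bcc_one_le (hQre b hb z hz)
  have hu0 : ∀ b ∈ Ioo b₁ b₂, ∀ z ∈ ball (0 : ℂ) 1, 1 + bccQ (f b) z ≠ 0 := by
    intro b hb z hz h
    have := hu1 b hb z hz
    rw [h, norm_zero] at this
    linarith
  have hQ1 : 1 ≤ Qm := (hu1 b₀ hb₀ 0 (mem_ball_self one_pos)).trans (hQm b₀ hb₀')
  set M : ℝ := 2 * A + 1 with hM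
  have hM1 : 1 ≤ M := by linarith
  let Bf : ℝ → ℂ → ℂ := fun b z => f b z / (1 + bccQ (f b) z)
  let Cf : ℝ → ℂ → ℂ := fun b z => 1 / (1 + bccQ (f b) z)
  have hBc : ContinuousOn (fun q : ℝ × ℂ => Bf q.1 q.2) (Ioo b₁ b₂ ×ˢ ball 0 1) :=
    hc.div (continuousOn_const.add hQc) fun q hq => hu0 q.1 hq.1 q.2 hq.2
  have hCc : ContinuousOn (fun q : ℝ × ℂ => Cf q.1 q.2) (Ioo b₁ b₂ ×ˢ ball 0 1) :=
    continuousOn_const.div (continuousOn_const.add hQc) fun q hq => hu0 q.1 hq.1 q.2 hq.2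
  have hBc' : ContinuousOn (fun q : ℝ × ℂ => Bf q.1 q.2) (Ioo β₁ β₂ ×ˢ ball 0 1) :=
    hBc.mono (prod_mono hsub' subset_rfl)
  have hCc' : ContinuousOn (fun q : ℝ × ℂ => Cf q.1 q.2) (Ioo β₁ β₂ ×ˢ ball 0 1) :=
    hCc.mono (prod_mono hsub' subset_rfl)
  have hBd : ∀ b ∈ Ioo β₁ β₂, DifferentiableOn ℂ (Bf b) (ball 0 1) := fun b hb =>
    (hd b (hsub' hb)).div ((differentiableOn_const _).add (bccQ_diff (hd b (hsub' hb))))
      fun z hz => hu0 b (hsub' hb) z hz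
  have hCd : ∀ b ∈ Ioo β₁ β₂, DifferentiableOn ℂ (Cf b) (ball 0 1) := fun b hb =>
    (differentiableOn_const _).div ((differentiableOn_const _).add (bccQ_diff (hd b (hsub' hb))))
      fun z hz => hu0 b (hsub' hb) z hz
  have hBM : ∀ b ∈ Ioo β₁ β₂, ∀ z ∈ ball (0 : ℂ) 1, ‖Bf b z‖ ≤ M := by
    intro b hb z hz
    refine (bcc_B (hBP b (hsub' hb)) hz).trans ?_
    have := hA b (Ioo_subset_Icc_self hb)
    linarith
  have hCM : ∀ b ∈ Ioo β₁ β₂, ∀ z ∈ ball (0 : ℂ) 1, ‖Cf b z‖ ≤ M := by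
    intro b hb z hz
    have h1 := hu1 b (hsub' hb) z hz
    simp only [Cf]
    rw [norm_div, norm_one]
    refine le_trans ?_ hM1
    rw [div_le_one (by linarith)]
    exact h1
  obtain ⟨c₁, c₂, cL, k1, k2, k3, k4, k5⟩ := hLow β₁ β₂ Bf (by linarith) hBc' hBd
    ⟨b₀, ⟨hβ.2.1, hβ.2.2.1⟩, z₀, hz₀, div_ne_zero hf₀ (hu0 b₀ hb₀ z₀ hz₀)⟩
  have hcI : Icc c₁ c₂ ⊆ Ioo β₁ β₂ := fun b hb => ⟨k1.trans_le hb.1, hb.2.trans_lt k3⟩
  set m0 : ℝ := cL / (2 * M ^ 2) with hm0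
  have hm0p : 0 < m0 := by positivity
  -- the constant `Λ`
  set κ : ℝ := 40 * (c₂ - c₁) / m0 with hκ
  have hc12 : 0 < c₂ - c₁ := by linarith
  have hκp : 0 < κ := by positivity
  set Λ : ℝ := Qm * κ ^ 2 with hΛ
  have hΛp : 0 < Λ := by positivity
  have hWv : 10 * Real.sqrt (Qm / Λ) * (c₂ - c₁) = m0 / 4 := by
    have h1 : Qm / Λ = (1 / κ) ^ 2 := by
      rw [hΛ]; field_simp
    rw [h1, Real.sqrt_sq (by positivity), hκ]
    field_simp
    norm_num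
  have hArp : 0 < (c₂ - c₁) * (2 * Real.pi) := by positivity
  refine ⟨c₁, c₂, m0 / 4, Real.sqrt (cL / (2 * ((c₂ - c₁) * (2 * Real.pi)))), M * Λ,
    hβ.1.trans k1, k2, k3.trans hβ.2.2.2, by positivity, by positivity, ?_⟩
  intro Bad hBad D hD
  -- points on circles
  have hzr : ∀ r ∈ Ico (1 / 2 : ℝ) 1, ∀ θ : ℝ, (r * exp (θ * I) : ℂ) ∈ ball (0 : ℂ) 1 := by
    intro r hr θ
    rw [mem_ball_zero_iff, norm_mul, Complex.norm_exp_ofReal_mul_I, mul_one, Complex.norm_real,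
      Real.norm_of_nonneg (by linarith [hr.1])]
    exact hr.2
  have hcirc : ∀ g : ℝ → ℂ → ℂ, ContinuousOn (fun q : ℝ × ℂ => g q.1 q.2)
      (Ioo β₁ β₂ ×ˢ ball 0 1) → ∀ r ∈ Ico (1 / 2 : ℝ) 1,
      ContinuousOn (fun x : ℝ × ℝ => g x.1 (r * exp (x.2 * I))) (bccR c₁ c₂) := by
    intro g hg r hr
    exact hg.comp (f := fun x : ℝ × ℝ => (x.1, (r * exp (x.2 * I) : ℂ)))
      (by fun_prop) (fun x hx => ⟨hcI hx.1, hzr r hr x.2⟩)
  -- the choice of `r`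
  have hstep : ∀ n : ℕ, ∃ r b θ : ℝ, r ∈ Ico (1 / 2 : ℝ) 1 ∧ 1 - r < 1 / ((n : ℝ) + 1) ∧
      b ∈ Icc c₁ c₂ ∧ θ ∈ Icc 0 (2 * Real.pi) ∧ (b, θ) ∉ Bad r ∧
      Real.sqrt (cL / (2 * ((c₂ - c₁) * (2 * Real.pi)))) ≤ ‖Bf b (r * exp (θ * I))‖ ∧
      ‖1 + bccQ (f b) (r * exp (θ * I))‖ ≤ Λ ∧
      ∀ j ≤ n, b + Real.sqrt (1 - r) * (D j).1 ∈ Ioo β₁ β₂ ∧
        ‖Bf (b + Real.sqrt (1 - r) * (D j).1)
          (exp (θ * I) * (((D j).2 + r) / (1 + r * (D j).2))) - Bf b (r * exp (θ * I))‖ ^ 2 <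
          (1 / 2) ^ n ∧
        ‖Cf (b + Real.sqrt (1 - r) * (D j).1)
          (exp (θ * I) * (((D j).2 + r) / (1 + r * (D j).2))) - Cf b (r * exp (θ * I))‖ ^ 2 <
          (1 / 2) ^ n := by
    intro n
    set ε : ℝ := (1 / 2) ^ n with hε
    have hεp : 0 < ε := by positivity
    set J : ℝ := m0 / (8 * ((n : ℝ) + 1)) with hJ
    have hJp : 0 < J := by positivity
    have e1 : ∀ᶠ r : ℝ in 𝓝[<] 1, r ∈ Ico (1 / 2 : ℝ) 1 := by
      filter_upwards [self_mem_nhdsWithin, nhdsWithin_le_nhds (Ioi_mem_nhds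
        (show (1 / 2 : ℝ) < 1 by norm_num))] with r h1 h2
      exact ⟨h2.le, h1⟩
    have e2 : ∀ᶠ r : ℝ in 𝓝[<] 1, 1 - r < 1 / ((n : ℝ) + 1) := by
      have h1 : Tendsto (fun r : ℝ => 1 - r) (𝓝[<] 1) (𝓝 (1 - 1)) :=
        (tendsto_const_nhds.sub tendsto_id).mono_left nhdsWithin_le_nhds
      rw [sub_self] at h1
      exact h1.eventually_lt_const (by positivity)
    have e3 : ∀ j : ℕ, ∀ᶠ r : ℝ in 𝓝[<] 1, |Real.sqrt (1 - r) * (D j).1| <
        min (c₁ - β₁) (β₂ - c₂) := by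
      intro j
      have h1 : Tendsto (fun r : ℝ => |Real.sqrt (1 - r) * (D j).1|) (𝓝 1)
          (𝓝 |Real.sqrt (1 - 1) * (D j).1|) := by
        have : Continuous (fun r : ℝ => |Real.sqrt (1 - r) * (D j).1|) := by fun_prop
        exact this.tendsto 1
      rw [sub_self, Real.sqrt_zero, zero_mul, abs_zero] at h1
      exact (h1.mono_left nhdsWithin_le_nhds).eventually_lt_const
        (lt_min (by linarith) (by linarith))
    have e4 : ∀ g : ℝ → ℂ → ℂ, ContinuousOn (fun q : ℝ × ℂ => g q.1 q.2)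
        (Ioo β₁ β₂ ×ˢ ball 0 1) → (∀ b ∈ Ioo β₁ β₂, DifferentiableOn ℂ (g b) (ball 0 1)) →
        (∀ b ∈ Ioo β₁ β₂, ∀ z ∈ ball (0 : ℂ) 1, ‖g b z‖ ≤ M) → ∀ j : ℕ, ∀ᶠ r : ℝ in 𝓝[<] 1,
        ∫ b in c₁..c₂, ∫ θ in (0 : ℝ)..(2 * Real.pi),
          ‖g (b + Real.sqrt (1 - r) * (D j).1)
            (exp (θ * I) * (((D j).2 + r) / (1 + r * (D j).2))) - g b (r * exp (θ * I))‖ ^ 2 <
          ε * J := fun g h1 h2 h3 j =>
      (hL2 β₁ β₂ c₁ c₂ M g k1 k2 k3 h1 h2 h3 (D j).1 (D j).2 (hD j)).eventually_lt_const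
        (by positivity)
    have e5 : ∀ᶠ r : ℝ in 𝓝[<] 1, ∀ j ∈ Finset.range (n + 1),
        |Real.sqrt (1 - r) * (D j).1| < min (c₁ - β₁) (β₂ - c₂) ∧
        ∫ b in c₁..c₂, ∫ θ in (0 : ℝ)..(2 * Real.pi),
          ‖Bf (b + Real.sqrt (1 - r) * (D j).1)
            (exp (θ * I) * (((D j).2 + r) / (1 + r * (D j).2))) - Bf b (r * exp (θ * I))‖ ^ 2 <
          ε * J ∧
        ∫ b in c₁..c₂, ∫ θ in (0 : ℝ)..(2 * Real.pi),
          ‖Cf (b + Real.sqrt (1 - r) * (D j).1)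
            (exp (θ * I) * (((D j).2 + r) / (1 + r * (D j).2))) - Cf b (r * exp (θ * I))‖ ^ 2 <
          ε * J := by
      rw [Filter.eventually_all_finset]
      intro j _
      exact (e3 j).and ((e4 Bf hBc' hBd hBM j).and (e4 Cf hCc' hCd hCM j))
    obtain ⟨r, ⟨hr, hr1⟩, hr2⟩ := ((e1.and e2).and e5).exists
    -- the two families of functions
    have hshift : ∀ j ≤ n, ∀ b ∈ Icc c₁ c₂, b + Real.sqrt (1 - r) * (D j).1 ∈ Ioo β₁ β₂ := by
      intro j hj b hb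
      have h1 := (hr2 j (Finset.mem_range.2 (by omega))).1
      rw [lt_min_iff, abs_lt, abs_lt] at h1
      constructor <;> linarith [hb.1, hb.2, h1.1.1, h1.2.2]
    have hcont : ∀ g : ℝ → ℂ → ℂ, ContinuousOn (fun q : ℝ × ℂ => g q.1 q.2)
        (Ioo β₁ β₂ ×ˢ ball 0 1) → ∀ j ≤ n, ContinuousOn (fun x : ℝ × ℝ =>
          ‖g (x.1 + Real.sqrt (1 - r) * (D j).1)
            (exp (x.2 * I) * (((D j).2 + r) / (1 + r * (D j).2))) -
            g x.1 (r * exp (x.2 * I))‖ ^ 2) (bccR c₁ c₂) := by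
      intro g hg j hj
      refine ((ContinuousOn.sub ?_ (hcirc g hg r hr)).norm).pow 2
      exact hg.comp (f := fun x : ℝ × ℝ => (x.1 + Real.sqrt (1 - r) * (D j).1,
        exp (x.2 * I) * (((D j).2 + r) / (1 + r * (D j).2)))) (by fun_prop)
        (fun x hx => ⟨hshift j hj x.1 hx.1, (bcc_mob (hD j) (by linarith [hr.1]) hr.2 x.2).1⟩)
    let NN : (ℝ → ℂ → ℂ) → ℕ → Set (ℝ × ℝ) := fun g j => {x | ε ≤
      ‖g (x.1 + Real.sqrt (1 - r) * (D j).1)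
            (exp (x.2 * I) * (((D j).2 + r) / (1 + r * (D j).2))) -
            g x.1 (r * exp (x.2 * I))‖ ^ 2}
    have hNB : ∀ j ≤ n, volume (NN Bf j ∩ bccR c₁ c₂) ≤ ENNReal.ofReal J := fun j hj =>
      bcc_markov k2.le (hcont Bf hBc' j hj) (fun x => by positivity) hεp
        (hr2 j (Finset.mem_range.2 (by omega))).2.1.le
    have hNC : ∀ j ≤ n, volume (NN Cf j ∩ bccR c₁ c₂) ≤ ENNReal.ofReal J := fun j hj =>
      bcc_markov k2.le (hcont Cf hCc' j hj) (fun x => by positivity) hεp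
        (hr2 j (Finset.mem_range.2 (by omega))).2.2.le
    let Wd : Set (ℝ × ℝ) := {x | Λ < ‖1 + bccQ (f x.1) (r * exp (x.2 * I))‖}
    have hWd : volume (Wd ∩ bccR c₁ c₂) ≤ ENNReal.ofReal (m0 / 4) := by
      rw [← hWv]
      refine bcc_slice k2.le (h := fun x : ℝ × ℝ => ‖1 + bccQ (f x.1) (r * exp (x.2 * I))‖) ?_ ?_
      · exact (continuousOn_const.add (hcirc (fun b z => bccQ (f b) z)
          (hQc.mono (prod_mono hsub' subset_rfl)) r hr)).norm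
      · intro b hb
        have hbI := hsub' (hcI hb)
        refine (hW (bccQ (f b)) (bccQ_diff (hd b hbI)) (hQre b hbI) r Λ (by linarith [hr.1]) hr.2
          hΛp).trans (ENNReal.ofReal_le_ofReal ?_)
        have := hQm b (Ioo_subset_Icc_self (hcI hb))
        gcongr
    let U : Set (ℝ × ℝ) := (Bad r ∪ Wd) ∪ ⋃ j ∈ Finset.range (n + 1), (NN Bf j ∪ NN Cf j)
    have hUv : volume (U ∩ bccR c₁ c₂) ≤ ENNReal.ofReal (3 / 4 * (cL / (2 * M ^ 2))) := by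
      have h1 : U ∩ bccR c₁ c₂ ⊆ ((Bad r ∩ bccR c₁ c₂) ∪ (Wd ∩ bccR c₁ c₂)) ∪
          ⋃ j ∈ Finset.range (n + 1), ((NN Bf j ∩ bccR c₁ c₂) ∪ (NN Cf j ∩ bccR c₁ c₂)) := by
        rintro x ⟨(hx | hx) | hx, hxR⟩
        · exact Or.inl (Or.inl ⟨hx, hxR⟩)
        · exact Or.inl (Or.inr ⟨hx, hxR⟩)
        · right
          simp only [mem_iUnion] at hx ⊢
          obtain ⟨j, hj, hx⟩ := hx
          exact ⟨j, hj, hx.imp (fun h => ⟨h, hxR⟩) (fun h => ⟨h, hxR⟩)⟩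
      have h2 : volume (⋃ j ∈ Finset.range (n + 1), ((NN Bf j ∩ bccR c₁ c₂) ∪
          (NN Cf j ∩ bccR c₁ c₂))) ≤ ENNReal.ofReal (m0 / 4) := by
        refine (measure_biUnion_finset_le _ _).trans ?_
        have h3 : ∀ j ∈ Finset.range (n + 1), volume ((NN Bf j ∩ bccR c₁ c₂) ∪
            (NN Cf j ∩ bccR c₁ c₂)) ≤ ENNReal.ofReal (2 * J) := by
          intro j hj
          have hj' : j ≤ n := by
            have := Finset.mem_range.1 hj
            omega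
          refine (measure_union_le _ _).trans ?_
          refine (add_le_add (hNB j hj') (hNC j hj')).trans ?_
          rw [← ENNReal.ofReal_add hJp.le hJp.le, two_mul]
        refine (Finset.sum_le_sum h3).trans ?_
        rw [Finset.sum_const, Finset.card_range, nsmul_eq_mul, ← ENNReal.ofReal_natCast,
          ← ENNReal.ofReal_mul (by positivity)]
        refine ENNReal.ofReal_le_ofReal (le_of_eq ?_)
        rw [hJ]
        push_cast
        field_simp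
        norm_num
      refine (measure_mono h1).trans ((measure_union_le _ _).trans ?_)
      refine (add_le_add ((measure_union_le _ _).trans (add_le_add (hBad r hr).2 hWd)) h2).trans ?_
      rw [← ENNReal.ofReal_add (by positivity) (by positivity),
        ← ENNReal.ofReal_add (by positivity) (by positivity)]
      refine ENNReal.ofReal_le_ofReal (le_of_eq ?_)
      rw [← hm0]
      ring
    obtain ⟨x, hx, hxU, hxc⟩ := bcc_select (F := fun x : ℝ × ℝ => ‖Bf x.1 (r * exp (x.2 * I))‖ ^ 2)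
      k2 ((hcirc Bf hBc' r hr).norm.pow 2) (M2 := M ^ 2) (cL := cL) (by positivity) k4
      (fun x hx => by
        have := hBM x.1 (hcI hx.1) _ (hzr r hr x.2)
        gcongr) (k5 r hr) hUv
    have hxU1 : x ∉ Bad r := fun h => hxU (Or.inl (Or.inl h))
    have hxU2 : x ∉ Wd := fun h => hxU (Or.inl (Or.inr h))
    have hxU3 : ∀ j ≤ n, x ∉ NN Bf j ∧ x ∉ NN Cf j := by
      intro j hj
      constructor
      · intro h
        apply hxU
        right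
        simp only [mem_iUnion]
        exact ⟨j, Finset.mem_range.2 (by omega), Or.inl h⟩
      · intro h
        apply hxU
        right
        simp only [mem_iUnion]
        exact ⟨j, Finset.mem_range.2 (by omega), Or.inr h⟩
    refine ⟨r, x.1, x.2, hr, hr1, hx.1, hx.2, hxU1, ?_, not_lt.1 hxU2, ?_⟩
    · rw [Real.sqrt_le_left (norm_nonneg _)]
      exact hxc
    · intro j hj
      obtain ⟨h1, h2⟩ := hxU3 j hj
      exact ⟨hshift j hj x.1 hx.1, not_le.1 h1, not_le.1 h2⟩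
  choose r b θ g1 g2 g3 g4 g5 g6 g7 g8 using hstep
  have hfB : ∀ b ∈ Ioo b₁ b₂, ∀ z ∈ ball (0 : ℂ) 1, f b z = Bf b z * (1 + bccQ (f b) z) :=
    fun b hb z hz => (div_mul_cancel₀ _ (hu0 b hb z hz)).symm
  have hbI : ∀ n, b n ∈ Ioo b₁ b₂ := fun n => hsub' (hcI (g3 n))
  refine ⟨r, b, θ, ?_, ?_, ?_⟩
  · have h1 : Tendsto (fun n : ℕ => 1 - 1 / ((n : ℝ) + 1)) atTop (𝓝 (1 - 0)) :=
      tendsto_const_nhds.sub tendsto_one_div_add_atTop_nhds_zero_nat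
    rw [sub_zero] at h1
    refine tendsto_of_tendsto_of_tendsto_of_le_of_le h1 tendsto_const_nhds ?_ ?_
    · intro n
      have := g2 n
      simp only
      linarith
    · intro n
      exact (g1 n).2.le
  · intro n
    refine ⟨g1 n, g3 n, g4 n, g5 n, ?_, ?_⟩
    · rw [hfB _ (hbI n) _ (hzr _ (g1 n) _), norm_mul]
      have := hu1 _ (hbI n) _ (hzr _ (g1 n) (θ n))
      calc _ ≤ ‖Bf (b n) (r n * exp (θ n * I))‖ * 1 := by rw [mul_one]; exact g6 n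
        _ ≤ _ := by gcongr
    · rw [hfB _ (hbI n) _ (hzr _ (g1 n) _), norm_mul]
      exact mul_le_mul (hBM _ (hcI (g3 n)) _ (hzr _ (g1 n) _)) (g7 n) (norm_nonneg _)
        (by linarith)
  · intro j
    have hs : Tendsto (fun n : ℕ => Real.sqrt ((1 / 2 : ℝ) ^ n)) atTop (𝓝 0) := by
      have h1 : Tendsto (fun n : ℕ => (1 / 2 : ℝ) ^ n) atTop (𝓝 0) :=
        tendsto_pow_atTop_nhds_zero_of_lt_one (by norm_num) (by norm_num)
      have h2 := (Real.continuous_sqrt.tendsto 0).comp h1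
      rw [Real.sqrt_zero] at h2
      exact h2
    have hs2 : ∀ᶠ n : ℕ in atTop, 2 * Λ * Real.sqrt ((1 / 2 : ℝ) ^ n) ≤ 1 := by
      have h1 := hs.const_mul (2 * Λ)
      rw [mul_zero] at h1
      exact h1.eventually_le_const one_pos
    have hbd := hs.const_mul (2 * Λ + 2 * M * Λ ^ 2)
    rw [mul_zero] at hbd
    refine squeeze_zero_norm' ?_ hbd
    filter_upwards [hs2, eventually_ge_atTop j] with n hn hjn
    obtain ⟨h1, h2, h3⟩ := g8 n j hjn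
    have hz' := (bcc_mob (hD j) (by linarith [(g1 n).1]) (g1 n).2 (θ n)).1
    have hz := hzr _ (g1 n) (θ n)
    rw [hfB _ (hsub' h1) _ hz', hfB _ (hbI n) _ hz]
    refine bcc_diff (hu0 _ (hbI n) _ hz) (hu0 _ (hsub' h1) _ hz') (g7 n)
      (hBM _ (hcI (g3 n)) _ hz) hΛp hn ?_ ?_
    · rw [← Real.sqrt_sq (norm_nonneg _)]
      exact Real.sqrt_le_sqrt h2.le
    · rw [← Real.sqrt_sq (norm_nonneg _)]
      exact Real.sqrt_le_sqrt h3.le

end Pool.Agent.H63.TC
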