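import Pool.Agent.H63.TC.Stmts

/-!
# Project TC, module FND: properness of `Phi` modulo the group
-/

open Complex Metric Set Filter Topology

namespace Pool.Agent.H63.TC

/-- periodicity of `P` -/
lemma fnd_per (hP : PdfStmt) {τ : ℂ} (hτ : 0 < τ.im) (z : ℂ) (k l : ℤ) :
    P τ (z + k * τ + l) = P τ z := by
  have h1 : Function.Periodic (P τ) 1 := fun z => (hP.2 τ hτ z).1
  have h2 : Function.Periodic (P τ) τ := fun z => (hP.2 τ hτ z).2.1
  have h3 := h1.int_mul l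
  have h4 := h2.int_mul k
  rw [show (z + k * τ + l : ℂ) = z + k * τ + l * 1 by ring, h3, h4]

lemma fnd_contP (hP : PdfStmt) : ContinuousOn (fun q : ℂ × ℂ => P q.1 q.2) YY :=
  hP.1.continuousOn

/-- continuity of `P` at a point of `YY` -/
lemma fnd_contP' (hP : PdfStmt) {q : ℂ × ℂ} (hq : q ∈ YY) :
    ContinuousAt (fun q : ℂ × ℂ => P q.1 q.2) q :=
  (fnd_contP hP).continuousAt (isOpen_YY.mem_nhds hq)

lemma fnd_conte (hP : PdfStmt) {τ : ℂ} (hτ : 0 < τ.im) :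
    ContinuousAt e1 τ ∧ ContinuousAt e2 τ ∧ ContinuousAt e3 τ := by
  have h : ∀ g : ℂ → ℂ, Continuous g → (τ, g τ) ∈ YY → ContinuousAt (fun t => P t (g t)) τ := by
    intro g hg hm
    have h1 : ContinuousAt (fun t : ℂ => (t, g t)) τ := by fun_prop
    exact ContinuousAt.comp (f := fun t : ℂ => (t, g t)) (g := fun q : ℂ × ℂ => P q.1 q.2)
      (fnd_contP' hP hm) h1
  refine ⟨h (fun t => t / 2) (by fun_prop) ⟨hτ, not_lat_half1 hτ⟩,
    h (fun t => (1 + t) / 2) (by fun_prop) ⟨hτ, not_lat_half2 hτ⟩,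
    h (fun t => 1 / 2) (by fun_prop) ⟨hτ, not_lat_half3 hτ⟩⟩

/-- continuity of `Phi` -/
lemma fnd_contPhi (hP : PdfStmt) (hH : HlfStmt) {q : ℂ × ℂ} (h1 : 0 < q.1.im)
    (h2 : ¬ Lat q.1 (q.2 / 2)) : ContinuousAt Phi q := by
  obtain ⟨c1, c2, c3⟩ := fnd_conte hP h1
  have c1' : ContinuousAt (fun q : ℂ × ℂ => e1 q.1) q :=
    ContinuousAt.comp (f := fun q : ℂ × ℂ => q.1) (g := e1) c1 continuousAt_fst
  have c2' : ContinuousAt (fun q : ℂ × ℂ => e2 q.1) q :=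
    ContinuousAt.comp (f := fun q : ℂ × ℂ => q.1) (g := e2) c2 continuousAt_fst
  have c3' : ContinuousAt (fun q : ℂ × ℂ => e3 q.1) q :=
    ContinuousAt.comp (f := fun q : ℂ × ℂ => q.1) (g := e3) c3 continuousAt_fst
  have hne : e2 q.1 - e1 q.1 ≠ 0 := sub_ne_zero.2 (hH q.1 h1).1.symm
  have c4 : ContinuousAt (fun q : ℂ × ℂ => P q.1 (q.2 / 2)) q := by
    have h : ContinuousAt (fun q : ℂ × ℂ => (q.1, q.2 / 2)) q := by fun_prop
    exact ContinuousAt.comp (f := fun q : ℂ × ℂ => (q.1, q.2 / 2))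
      (g := fun q : ℂ × ℂ => P q.1 q.2) (fnd_contP' hP (q := (q.1, q.2 / 2)) ⟨h1, h2⟩) h
  have c5 : ContinuousAt (fun q : ℂ × ℂ => lam q.1) q :=
    (c3'.sub c1').div (c2'.sub c1') hne
  have c6 : ContinuousAt (fun q : ℂ × ℂ => yy q.1 q.2) q :=
    (c4.sub c1').div (c2'.sub c1') hne
  exact c5.prodMk c6

/-- at half periods `Phi` is not in `MM` -/
lemma fnd_half (hP : PdfStmt) (hH : HlfStmt) {q : ℂ × ℂ} (h1 : 0 < q.1.im)
    (h3 : Phi q ∈ MM) (h2 : ¬ Lat q.1 (q.2 / 2)) : q ∈ YY := by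
  refine ⟨h1, ?_⟩
  rintro ⟨m, n, e⟩
  have hne : e2 q.1 - e1 q.1 ≠ 0 := sub_ne_zero.2 (hH q.1 h1).1.symm
  obtain ⟨-, -, g1, g2, g3⟩ := h3
  simp only [Phi] at g1 g2 g3
  rcases Int.even_or_odd' m with ⟨k, hk | hk⟩ <;> rcases Int.even_or_odd' n with ⟨l, hl | hl⟩
  · exact h2 ⟨k, l, by rw [e, hk, hl]; push_cast; ring⟩
  · apply g3
    have : q.2 / 2 = 1 / 2 + k * q.1 + l := by rw [e, hk, hl]; push_cast; ring
    rw [lam, yy, this, fnd_per hP h1]
    rfl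
  · apply g1
    have : q.2 / 2 = q.1 / 2 + k * q.1 + l := by rw [e, hk, hl]; push_cast; ring
    rw [yy, this, fnd_per hP h1]
    simp [e1]
  · apply g2
    have : q.2 / 2 = (1 + q.1) / 2 + k * q.1 + l := by rw [e, hk, hl]; push_cast; ring
    rw [yy, this, fnd_per hP h1]
    exact div_self hne

/-- real coordinates -/
noncomputable def fndPsi (s : ℂ × ℝ × ℝ) : ℂ × ℂ := (s.1, s.2.1 * s.1 + s.2.2)

lemma fnd_contPsi : Continuous fndPsi := by
  unfold fndPsi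
  fun_prop

lemma fnd_sin_eq_zero {z : ℂ} (h : Complex.sin (Real.pi * z) = 0) : ∃ j : ℤ, z = j := by
  rw [Complex.sin_eq_zero_iff] at h
  obtain ⟨j, hj⟩ := h
  refine ⟨j, ?_⟩
  have hpi : (Real.pi : ℂ) ≠ 0 := by exact_mod_cast Real.pi_ne_zero
  have : (Real.pi : ℂ) * z = Real.pi * j := by rw [hj]; ring
  exact mul_left_cancel₀ hpi this

lemma fnd_blow (hP : PdfStmt) (hR : PrgStmt) (hH : HlfStmt) {K : Set (ℂ × ℂ)} (hK : IsCompact K)
    {S : Set (ℂ × ℝ × ℝ)} (hS : ∀ s ∈ S, fndPsi s ∈ YY ∧ Phi (fndPsi s) ∈ K)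
    {s : ℂ × ℝ × ℝ} (hs : s ∈ closure S) (h1 : 0 < s.1.im)
    (h2 : Lat s.1 ((fndPsi s).2 / 2)) : False := by
  obtain ⟨k, l, e⟩ := h2
  have hF : (𝓝[S] s).NeBot := mem_closure_iff_nhdsWithin_neBot.1 hs
  obtain ⟨B, hB⟩ := hK.exists_bound_of_continuousOn (f := fun m : ℂ × ℂ => m.2)
    continuousOn_snd
  obtain ⟨c1, c2, c3⟩ := fnd_conte hP h1
  have cfst : ContinuousAt (fun s : ℂ × ℝ × ℝ => s.1) s := continuousAt_fst
  have c1' : ContinuousAt (fun s : ℂ × ℝ × ℝ => e1 s.1) s :=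
    ContinuousAt.comp (f := fun s : ℂ × ℝ × ℝ => s.1) (g := e1) c1 cfst
  have c2' : ContinuousAt (fun s : ℂ × ℝ × ℝ => e2 s.1) s :=
    ContinuousAt.comp (f := fun s : ℂ × ℝ × ℝ => s.1) (g := e2) c2 cfst
  let v : ℂ × ℝ × ℝ → ℂ := fun t => (fndPsi t).2 / 2 - k * t.1 - l
  have hv : Continuous v := by
    have := fnd_contPsi
    fun_prop
  have hv0 : v s = 0 := by simp only [v]; rw [e]; ring
  have hreg : ContinuousAt (fun q : ℂ × ℂ => P q.1 q.2 - (Real.pi : ℂ) ^ 2 /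
      (Complex.sin (Real.pi * q.2)) ^ 2) (s.1, 0) := by
    have ho : IsOpen {q : ℂ × ℂ | 0 < q.1.im ∧ |q.2.im| < q.1.im} := by
      have o1 : IsOpen {q : ℂ × ℂ | 0 < q.1.im} := isOpen_upper
      have o2 : IsOpen {q : ℂ × ℂ | |q.2.im| < q.1.im} := by
        refine isOpen_lt ?_ ?_
        · exact (Complex.continuous_im.comp continuous_snd).abs
        · exact Complex.continuous_im.comp continuous_fst
      exact o1.inter o2
    exact hR.continuousOn.continuousAt (ho.mem_nhds ⟨h1, by simpa using h1⟩)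
  have hreg' : ContinuousAt (fun t : ℂ × ℝ × ℝ => P t.1 (v t) - (Real.pi : ℂ) ^ 2 /
      (Complex.sin (Real.pi * v t)) ^ 2) s := by
    have h3 : ContinuousAt (fun t : ℂ × ℝ × ℝ => (t.1, v t)) s :=
      (continuous_fst.prodMk hv).continuousAt
    refine ContinuousAt.comp (f := fun t : ℂ × ℝ × ℝ => (t.1, v t))
      (g := fun q : ℂ × ℂ => P q.1 q.2 - (Real.pi : ℂ) ^ 2 /
      (Complex.sin (Real.pi * q.2)) ^ 2) ?_ h3
    simp only [hv0]
    exact hreg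
  have hsin : Tendsto (fun t => (Complex.sin (Real.pi * v t)) ^ 2) (𝓝[S] s) (𝓝 0) := by
    have h3 : Continuous (fun t => (Complex.sin (Real.pi * v t)) ^ 2) := by fun_prop
    have h4 := (h3.tendsto s).mono_left (nhdsWithin_le_nhds (s := S))
    simpa [hv0] using h4
  -- the two computations of the limit
  have lim1 : Tendsto (fun t => (Real.pi : ℂ) ^ 2 + (P t.1 (v t) - (Real.pi : ℂ) ^ 2 /
      (Complex.sin (Real.pi * v t)) ^ 2) * (Complex.sin (Real.pi * v t)) ^ 2) (𝓝[S] s)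
      (𝓝 ((Real.pi : ℂ) ^ 2)) := by
    have h3 := ((hreg'.tendsto).mono_left (nhdsWithin_le_nhds (s := S))).mul hsin
    have h4 := (tendsto_const_nhds (x := (Real.pi : ℂ) ^ 2)).add h3
    simpa using h4
  have him : ∀ᶠ t in 𝓝[S] s, t ∈ S := eventually_mem_nhdsWithin
  have lim2 : Tendsto (fun t => (Real.pi : ℂ) ^ 2 + (P t.1 (v t) - (Real.pi : ℂ) ^ 2 /
      (Complex.sin (Real.pi * v t)) ^ 2) * (Complex.sin (Real.pi * v t)) ^ 2) (𝓝[S] s) (𝓝 0) := by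
    have hb : Tendsto (fun t : ℂ × ℝ × ℝ => (B * ‖e2 t.1 - e1 t.1‖ + ‖e1 t.1‖) *
        ‖(Complex.sin (Real.pi * v t)) ^ 2‖) (𝓝[S] s) (𝓝 0) := by
      have h3 : ContinuousAt (fun t : ℂ × ℝ × ℝ => B * ‖e2 t.1 - e1 t.1‖ + ‖e1 t.1‖) s :=
        (continuousAt_const.mul (c2'.sub c1').norm).add c1'.norm
      have h4 := (h3.tendsto.mono_left (nhdsWithin_le_nhds (s := S))).mul hsin.norm
      simpa using h4
    refine squeeze_zero_norm' ?_ hb
    filter_upwards [him] with t ht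
    obtain ⟨⟨ht1, ht2⟩, ht3⟩ := hS t ht
    have htim : 0 < t.1.im := ht1
    have hne : e2 t.1 - e1 t.1 ≠ 0 := sub_ne_zero.2 (hH t.1 htim).1.symm
    have hs0 : (Complex.sin (Real.pi * v t)) ^ 2 ≠ 0 := by
      intro h0
      obtain ⟨j, hj⟩ := fnd_sin_eq_zero (pow_eq_zero_iff (two_ne_zero) |>.1 h0)
      apply ht2
      refine ⟨2 * k, 2 * l + 2 * j, ?_⟩
      have : (fndPsi t).2 = 2 * (v t + k * t.1 + l) := by simp only [v]; ring
      rw [this, hj]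
      push_cast
      simp only [fndPsi]
      ring
    have hPv : P t.1 (v t) = yy t.1 (fndPsi t).2 * (e2 t.1 - e1 t.1) + e1 t.1 := by
      have h5 : (fndPsi t).2 / 2 = v t + k * t.1 + l := by simp only [v]; ring
      rw [yy, h5, fnd_per hP htim, div_mul_cancel₀ _ hne]
      ring
    have h6 : (Real.pi : ℂ) ^ 2 + (P t.1 (v t) - (Real.pi : ℂ) ^ 2 /
        (Complex.sin (Real.pi * v t)) ^ 2) * (Complex.sin (Real.pi * v t)) ^ 2 =
        P t.1 (v t) * (Complex.sin (Real.pi * v t)) ^ 2 := by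
      rw [sub_mul, div_mul_cancel₀ _ hs0]
      ring
    rw [h6, norm_mul, hPv]
    gcongr
    refine (norm_add_le _ _).trans ?_
    rw [norm_mul]
    gcongr
    exact hB _ ht3
  have := tendsto_nhds_unique lim1 lim2
  have hpi : (Real.pi : ℂ) ≠ 0 := by exact_mod_cast Real.pi_ne_zero
  exact pow_ne_zero 2 hpi this

lemma fnd_compact (hP : PdfStmt) (hR : PrgStmt) (hH : HlfStmt) {K : Set (ℂ × ℂ)}
    (hK : IsCompact K) (hKM : K ⊆ MM) {K1 : Set ℂ} (hK1 : IsCompact K1)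
    (hK1p : ∀ t ∈ K1, 0 < t.im) :
    IsCompact {s : ℂ × ℝ × ℝ | s.1 ∈ K1 ∧ s.2.1 ∈ Icc (-1 : ℝ) 1 ∧ s.2.2 ∈ Icc (-1 : ℝ) 1 ∧
      fndPsi s ∈ YY ∧ Phi (fndPsi s) ∈ K} := by
  set S := {s : ℂ × ℝ × ℝ | s.1 ∈ K1 ∧ s.2.1 ∈ Icc (-1 : ℝ) 1 ∧ s.2.2 ∈ Icc (-1 : ℝ) 1 ∧
      fndPsi s ∈ YY ∧ Phi (fndPsi s) ∈ K} with hS
  have hSc : IsCompact (K1 ×ˢ (Icc (-1 : ℝ) 1 ×ˢ Icc (-1 : ℝ) 1)) :=
    hK1.prod (isCompact_Icc.prod isCompact_Icc)
  have hsub : S ⊆ K1 ×ˢ (Icc (-1 : ℝ) 1 ×ˢ Icc (-1 : ℝ) 1) := fun s hs => ⟨hs.1, hs.2.1, hs.2.2.1⟩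
  refine hSc.of_isClosed_subset ?_ hsub
  refine isClosed_of_closure_subset fun s hs => ?_
  have hs1 := closure_minimal hsub hSc.isClosed hs
  have him : 0 < s.1.im := hK1p _ hs1.1
  by_cases h2 : Lat s.1 ((fndPsi s).2 / 2)
  · exact (fnd_blow hP hR hH hK (S := S) (fun t ht => ⟨ht.2.2.2.1, ht.2.2.2.2⟩) hs him h2).elim
  · have hF : (𝓝[S] s).NeBot := mem_closure_iff_nhdsWithin_neBot.1 hs
    have hc : ContinuousAt (fun t => Phi (fndPsi t)) s :=
      ContinuousAt.comp (f := fndPsi) (g := Phi) (fnd_contPhi hP hH (q := fndPsi s) him h2)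
        fnd_contPsi.continuousAt
    have h3 : Phi (fndPsi s) ∈ K := by
      refine hK.isClosed.mem_of_tendsto (hc.tendsto.mono_left (nhdsWithin_le_nhds (s := S))) ?_
      filter_upwards [eventually_mem_nhdsWithin] with t ht
      exact ht.2.2.2.2
    exact ⟨hs1.1, hs1.2.1, hs1.2.2, fnd_half hP hH (q := fndPsi s) him (hKM h3) h2, h3⟩

lemma fnd_bound {K : Set (ℂ × ℂ)} (hK : IsCompact K) (hKM : K ⊆ MM) :
    ∃ B : ℝ, ∀ m ∈ K, ∀ y ∈ ({m.1, 1 - m.1, 1 / m.1, 1 / (1 - m.1), m.1 / (m.1 - 1),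
      (m.1 - 1) / m.1} : Set ℂ), ‖y‖ ≤ B := by
  obtain ⟨B, hB⟩ := hK.exists_bound_of_continuousOn (f := fun m : ℂ × ℂ =>
    ‖m.1‖ + ‖1 - m.1‖ + ‖1 / m.1‖ + ‖1 / (1 - m.1)‖ + ‖m.1 / (m.1 - 1)‖ + ‖(m.1 - 1) / m.1‖) (by
      intro m hm
      obtain ⟨h1, h2, -⟩ := hKM hm
      have h3 : 1 - m.1 ≠ 0 := sub_ne_zero.2 (Ne.symm h2)
      have h4 : m.1 - 1 ≠ 0 := sub_ne_zero.2 h2
      apply ContinuousAt.continuousWithinAt
      have c1 : ContinuousAt (fun m : ℂ × ℂ => m.1) m := continuousAt_fst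
      have c2 : ContinuousAt (fun m : ℂ × ℂ => 1 - m.1) m := continuousAt_const.sub c1
      have c3 : ContinuousAt (fun m : ℂ × ℂ => m.1 - 1) m := c1.sub continuousAt_const
      exact (((((c1.norm.add c2.norm).add (continuousAt_const.div c1 h1).norm).add
        (continuousAt_const.div c2 h3).norm).add (c1.div c3 h4).norm).add (c3.div c1 h1).norm))
  refine ⟨B, fun m hm y hy => ?_⟩
  have h := hB m hm
  rw [Real.norm_of_nonneg (by positivity)] at h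
  have p1 := norm_nonneg m.1
  have p2 := norm_nonneg (1 - m.1)
  have p3 := norm_nonneg (1 / m.1)
  have p4 := norm_nonneg (1 / (1 - m.1))
  have p5 := norm_nonneg (m.1 / (m.1 - 1))
  have p6 := norm_nonneg ((m.1 - 1) / m.1)
  simp only [mem_insert_iff, mem_singleton_iff] at hy
  rcases hy with rfl | rfl | rfl | rfl | rfl | rfl <;> linarith

lemma fnd_cusp (hC : Cu1Stmt) (B : ℝ) : ∃ R : ℝ, 1 ≤ R ∧ ∀ w : ℂ, ‖lam w‖ ≤ B → w.im ≤ R := by
  obtain ⟨R, hR⟩ := hC (1 / 32) (by norm_num)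
  refine ⟨max (max R (32 * B)) 1, le_max_right _ _, fun w hw => ?_⟩
  by_contra hcon
  rw [not_le, max_lt_iff, max_lt_iff] at hcon
  obtain ⟨⟨h1, h2⟩, h3⟩ := hcon
  have h4 := hR w h1
  have h5 : ‖exp (Real.pi * I * w)‖ = Real.exp (-(Real.pi * w.im)) := by
    rw [Complex.norm_exp]
    congr 1
    simp
  have h6 : (1 : ℝ) / 32 < ‖lam w‖ * Real.exp (-(Real.pi * w.im)) := by
    rw [← h5, ← norm_mul]
    have h7 : ‖(1 / 16 : ℂ)‖ ≤ ‖lam w * exp (Real.pi * I * w)‖ +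
        ‖lam w * exp (Real.pi * I * w) - 1 / 16‖ := by
      have := norm_sub_le (lam w * exp (Real.pi * I * w)) (lam w * exp (Real.pi * I * w) - 1 / 16)
      rwa [sub_sub_cancel] at this
    have h8 : ‖(1 / 16 : ℂ)‖ = 1 / 16 := by norm_num
    linarith
  rw [Real.exp_neg] at h6
  have hpos := Real.exp_pos (Real.pi * w.im)
  have h9 : Real.exp (Real.pi * w.im) < 32 * ‖lam w‖ := by
    have h10 := mul_lt_mul_of_pos_right h6 hpos
    rw [mul_assoc, inv_mul_cancel₀ hpos.ne', mul_one] at h10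
    linarith
  have h11 := Real.add_one_le_exp (Real.pi * w.im)
  have h12 : w.im ≤ Real.pi * w.im := by nlinarith [Real.pi_gt_three]
  linarith

lemma fnd_mob {a b c d : ℤ} (h : a * d - b * c = 1) (ha : |a| ≤ 1) (hb : |b| ≤ 1) (hc : |c| ≤ 1)
    (hd : |d| ≤ 1) {τ : ℂ} (hτ : 0 < τ.im) {R : ℝ} (hR : 1 ≤ R)
    (h1 : |((a * τ + b) / (c * τ + d) : ℂ).re| ≤ 1 / 2)
    (h2 : Real.sqrt 3 / 2 ≤ ((a * τ + b) / (c * τ + d) : ℂ).im)
    (h3 : ((a * τ + b) / (c * τ + d) : ℂ).im ≤ R) :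
    (Real.sqrt 3 / 2) / (R + 2) ^ 2 ≤ τ.im ∧ ‖τ‖ ≤ 2 * (R + 2) := by
  set w : ℂ := (a * τ + b) / (c * τ + d) with hw
  have hD0 := denom_ne_zero h hτ
  have hden : (c * τ + d) * (a - c * w) = 1 := act_denom h hτ
  have him : w.im = τ.im / ‖(c * τ + d : ℂ)‖ ^ 2 := act_im h hτ
  have hs3 : (1 : ℝ) / 2 ≤ Real.sqrt 3 / 2 := by
    have : (1 : ℝ) ≤ Real.sqrt 3 := by
      rw [show (1 : ℝ) = Real.sqrt 1 by simp]
      exact Real.sqrt_le_sqrt (by norm_num)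
    linarith
  have hwn : ‖w‖ ≤ R + 1 / 2 := by
    have := Complex.norm_le_abs_re_add_abs_im w
    have h4 : |w.im| = w.im := abs_of_nonneg (by linarith)
    rw [h4] at this
    linarith
  have habs : ∀ {k : ℤ}, |k| ≤ 1 → ‖(k : ℂ)‖ ≤ 1 := by
    intro k hk
    rw [Complex.norm_intCast]
    exact_mod_cast hk
  have hX : ‖(a - c * w : ℂ)‖ ≤ R + 2 := by
    have h5 : ‖(c * w : ℂ)‖ ≤ 1 * ‖w‖ := by
      rw [norm_mul]
      gcongr
      exact habs hc
    have := norm_sub_le (a : ℂ) (c * w)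
    have := habs ha
    linarith
  have hX2 : 1 / 2 ≤ ‖(a - c * w : ℂ)‖ := by
    by_cases hc0 : c = 0
    · subst hc0
      have ha1 : a = 1 ∨ a = -1 := by
        have : a * d = 1 := by simpa using h
        exact Int.eq_one_or_neg_one_of_mul_eq_one this
      rcases ha1 with rfl | rfl <;> norm_num
    · have h6 : |(a - c * w : ℂ).im| ≤ ‖(a - c * w : ℂ)‖ := Complex.abs_im_le_norm _
      have h7 : (a - c * w : ℂ).im = -(c * w.im) := by simp
      have h8 : (1 : ℝ) ≤ |(c : ℝ)| := by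
        have : (1 : ℤ) ≤ |c| := Int.one_le_abs hc0
        exact_mod_cast this
      rw [h7, abs_neg, abs_mul] at h6
      have h9 : 1 / 2 ≤ |w.im| := le_trans (hs3.trans h2) (le_abs_self _)
      nlinarith [abs_nonneg (c : ℝ), abs_nonneg w.im]
  have hDX : ‖(c * τ + d : ℂ)‖ * ‖(a - c * w : ℂ)‖ = 1 := by
    rw [← norm_mul, hden, norm_one]
  have hDpos : 0 < ‖(c * τ + d : ℂ)‖ := norm_pos_iff.2 hD0
  have hD2 : ‖(c * τ + d : ℂ)‖ ≤ 2 := by nlinarith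
  have hD3 : 1 / (R + 2) ≤ ‖(c * τ + d : ℂ)‖ := by
    rw [div_le_iff₀ (by linarith), ← hDX]
    gcongr
  constructor
  · have h10 : τ.im = w.im * ‖(c * τ + d : ℂ)‖ ^ 2 := by
      rw [him, div_mul_cancel₀]
      positivity
    rw [h10, div_eq_mul_one_div, ← one_div_pow]
    have h11 : 0 ≤ 1 / (R + 2) := by positivity
    gcongr
    linarith
  · have h12 : τ = (d * w - b) * (c * τ + d) := by
      have h13 : w * (c * τ + d) = a * τ + b := div_mul_cancel₀ _ hD0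
      have h14 : (a : ℂ) * d - b * c = 1 := by exact_mod_cast h
      linear_combination (-τ) * h14 - (d : ℂ) * h13
    have h15 : ‖(d * w - b : ℂ)‖ ≤ R + 2 := by
      have h5 : ‖(d * w : ℂ)‖ ≤ 1 * ‖w‖ := by
        rw [norm_mul]
        gcongr
        exact habs hd
      have := norm_sub_le (d * w : ℂ) (b : ℂ)
      have := habs hb
      linarith
    calc ‖τ‖ = ‖(d * w - b : ℂ)‖ * ‖(c * τ + d : ℂ)‖ := by rw [← norm_mul, ← h12]
      _ ≤ (R + 2) * 2 := by gcongr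
      _ = 2 * (R + 2) := by ring

/-- FND -/
theorem fnd (hP : PdfStmt) (hR : PrgStmt) (hH : HlfStmt) (hM : ModStmt) (hS : SixStmt)
    (hI : InvStmt) (hC : Cu1Stmt) : FndStmt := by
  intro K hK hKM
  obtain ⟨B, hB⟩ := fnd_bound hK hKM
  obtain ⟨R, hR1, hR2⟩ := fnd_cusp hC B
  set δ : ℝ := (Real.sqrt 3 / 2) / (R + 2) ^ 2 with hδ
  have hδ0 : 0 < δ := by positivity
  set K1 : Set ℂ := {t | δ ≤ t.im ∧ ‖t‖ ≤ 2 * (R + 2)} with hK1
  have hK1c : IsCompact K1 := by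
    refine (isCompact_closedBall (0 : ℂ) (2 * (R + 2))).of_isClosed_subset ?_ ?_
    · exact (isClosed_le continuous_const Complex.continuous_im).inter
        (isClosed_le continuous_norm continuous_const)
    · intro t ht
      rw [mem_closedBall_zero_iff]
      exact ht.2
  have hK1p : ∀ t ∈ K1, 0 < t.im := fun t ht => hδ0.trans_le ht.1
  refine ⟨_, (fnd_compact hP hR hH hK hKM hK1c hK1p).image fnd_contPsi, ?_, ?_⟩
  · rintro _ ⟨s, hs, rfl⟩
    exact hs.2.2.2.1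
  · intro q hq hqK
    obtain ⟨a, b, c, d, a', b', c', d', hG, hdet, l1, l2, l3, l4, hre, him⟩ := hM q.1 hq.1
    have hτ : 0 < q.1.im := hq.1
    set τ : ℂ := (a * q.1 + b) / (c * q.1 + d) with hτ'
    have hτp : 0 < τ.im := act_im_pos hG.1 hτ
    have hlam : lam τ = lam q.1 := by
      have := (hI a b c d 0 0 hG q hq).2
      exact congrArg Prod.fst this
    have hsix := hS a' b' c' d' hdet τ hτp
    rw [hlam] at hsix
    have hbd := hB _ hqK _ hsix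
    have hmob := fnd_mob hdet l1 l2 l3 l4 hτp hR1 hre him (hR2 _ hbd)
    set u : ℂ := q.2 / (c * q.1 + d) with hu
    set α := ca (τ, u) with hα
    set β := cb (τ, u) with hβ
    have huab : (α : ℂ) * τ + β = u := ca_cb (q := (τ, u)) hτp
    refine ⟨a, b, c, d, -round (α / 2), -round (β / 2), hG, ?_⟩
    obtain ⟨h1, h2⟩ := hI a b c d (-round (α / 2)) (-round (β / 2)) hG q hq
    have hact : act a b c d (-round (α / 2)) (-round (β / 2)) q =
        fndPsi (τ, α - 2 * round (α / 2), β - 2 * round (β / 2)) := by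
      simp only [act, fndPsi]
      rw [← hτ', ← hu, ← huab]
      push_cast
      ext1
      · rfl
      · simp only
        ring
    have hrd : ∀ x : ℝ, x - 2 * round (x / 2) ∈ Icc (-1 : ℝ) 1 := by
      intro x
      have := abs_le.1 (abs_sub_round (x / 2))
      constructor <;> linarith [this.1, this.2]
    refine ⟨(τ, α - 2 * round (α / 2), β - 2 * round (β / 2)),
      ⟨⟨hmob.1, hmob.2⟩, hrd α, hrd β, ?_, ?_⟩, hact.symm⟩
    · rw [← hact]; exact h1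
    · rw [← hact, h2]; exact hqK

end Pool.Agent.H63.TC
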